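import Mathlib
import Pool.Graph.R_seed8.Helper292.ForceCH
import Pool.Graph.R_pool_sql_team_seeded_3997aac3.Q209.DSp.HFCw

/-!
# MP_a0d807_gt, Q2: hereditarily paracompact spaces are consistently not D-spaces

* Some notion of forcing preserves `ω₁` and forces CH (forcing language of
  `Pool.Agent.Helper292.ForceCH`; `CHHolds P` is the set of the conditions which force the sentence
  `CHSentence`, which is equivalent to CH).
* Under CH there is a regular space with a base of clopen sets, all of whose subspaces are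
  paracompact, Lindelöf and separable, which is not a D-space; it is not even dually discrete: some
  open neighbourhood assignment has no kernel which is a finite union of discrete sets.
-/

set_option autoImplicit false

namespace Pool.Agent.Results.MP_a0d807_gt.ConsistentlyNotD

open Cardinal
open Pool.Agent.Helper292.ForceCH (Om CHHolds)

/-- D-spaces: each open neighbourhood assignment has a closed discrete kernel. -/
def DSpace (X : Type) [TopologicalSpace X] : Prop :=
  ∀ N : X → Set X, (∀ x, IsOpen (N x) ∧ x ∈ N x) →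
    ∃ D : Set X, IsClosed D ∧ DiscreteTopology D ∧ ⋃ x ∈ D, N x = Set.univ

/-- The continuum hypothesis. -/
def CH : Prop := (2 : Cardinal.{0}) ^ ℵ₀ = ℵ₁

/-- The sentence which `CHHolds P` says is forced, evaluated in the universe: some family of
subsets of `ℕ` indexed by `ω₁` contains every subset of `ℕ`. -/
def CHSentence : Prop :=
  ∃ E : Om → ℕ → Prop, ∀ x : ℕ → Prop, ∃ a : Om, ∀ n : ℕ, x n ↔ E a n

theorem ch_iff : CHSentence ↔ CH := by
  have h0 : #Om = ℵ₁ := mk_ord_toType _
  have h1 : #(Set ℕ) = 2 ^ ℵ₀ := by rw [mk_set, mk_nat]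
  constructor
  · rintro ⟨E, hE⟩
    refine le_antisymm ?_ ?_
    · rw [← h1, ← h0]
      refine mk_le_of_surjective (f := fun a : Om => {n | E a n}) fun x => ?_
      obtain ⟨a, ha⟩ := hE (fun n => n ∈ x)
      exact ⟨a, Set.ext fun n => (ha n).symm⟩
    · rw [← succ_aleph0]
      exact Order.succ_le_of_lt (cantor _)
  · intro h
    have h2 : #(Set ℕ) = #Om := by rw [h1, h0]; exact h
    obtain ⟨e⟩ := Cardinal.eq.1 h2
    refine ⟨fun a n => n ∈ e.symm a, fun x => ⟨e {n | x n}, fun n => ?_⟩⟩
    simp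

open Q209.DSp in
/-- **It is consistent that some regular hereditarily paracompact (and hereditarily Lindelöf,
hereditarily separable) space is not a D-space.** -/
theorem result :
    (∃ (P : Type) (_ : Preorder P), Nonempty P ∧ ∀ p : P,
      p ∈ Pool.Agent.Helper292.ForceCH.OmegaOnePreserved P ∧ p ∈ CHHolds P) ∧
    (CHSentence ↔ CH) ∧
    (CH → ∃ (X : Type) (_ : TopologicalSpace X),
      T3Space X ∧ TopologicalSpace.IsTopologicalBasis {s : Set X | IsClopen s} ∧
      (∀ Y : Set X, ParacompactSpace Y) ∧ HereditarilyLindelofSpace X ∧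
      (∀ t : Set X, ∃ c ⊆ t, c.Countable ∧ t ⊆ closure c) ∧
      ¬ DSpace X ∧
      ∃ N : X → Set X, (∀ x, IsOpen (N x) ∧ x ∈ N x) ∧
        ∀ (m : ℕ) (D : Fin m → Set X), (∀ j, DiscreteTopology (D j)) →
          (⋃ j, ⋃ x ∈ D j, N x) ≠ Set.univ) := by
  refine ⟨?_, ch_iff, fun h => ?_⟩
  · obtain ⟨P, i, hn, h⟩ := Pool.Agent.Helper292.ForceCH.exists_forcing
    exact ⟨P, i, hn, fun p => ⟨(h p).1, (h p).2.2⟩⟩
  have hCH : continuum.{0} = aleph 1 := by
    rw [← two_power_aleph0]
    exact h
  obtain ⟨M, hM⟩ := exists_mat hCH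
  have h0 := hl hM
  refine ⟨Set.range M, inferInstance, inferInstance, ?_, fun Y => paracompact_of_hl _ Y, h0,
    hsep hM, ?_, nb M, fun x => ⟨nb_open x, nb_mem hM x⟩, not_kernel hM⟩
  · refine TopologicalSpace.isTopologicalBasis_of_isOpen_of_nhds (fun s hs => hs.isOpen) ?_
    intro x V hx hV
    obtain ⟨V', hV', rfl⟩ := isOpen_induced_iff.1 hV
    obtain ⟨S, hS⟩ := exists_Cy hV' hx
    refine ⟨Subtype.val ⁻¹' Cy x.1 S, ⟨?_, (isOpen_Cy _ _).preimage continuous_subtype_val⟩,
      fun _ _ => rfl, fun z hz => hS hz⟩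
    have h1 : Cy x.1 S = ⋂ δ ∈ S, (fun z : Q209.Om.W1 → Bool => z δ) ⁻¹' {x.1 δ} := by
      ext z; simp [Cy]
    have h2 : IsClosed (Cy x.1 S) := by
      rw [h1]
      exact isClosed_biInter fun δ _ =>
        (isClosed_discrete _).preimage (continuous_apply δ)
    exact h2.preimage continuous_subtype_val
  · intro h
    obtain ⟨D, -, hD, hU⟩ := h (nb M) fun x => ⟨nb_open x, nb_mem hM x⟩
    apply not_kernel hM 1 (fun _ => D) (fun _ => hD)
    rw [← hU]
    ext z
    simp

end Pool.Agent.Results.MP_a0d807_gt.ConsistentlyNotD
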